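import Pool.Agent.W23.DC.Fin2
import Pool.Agent.W378.DC.FA
import Pool.Agent.W21.RV.Defs

/-!
RV-LW (helper489): the lower bound for the weighted sieve with five prime factors; adapted from
`Pool/Agent/W23/DC/Fin3.lean` and `Fin4.lean`.
-/

set_option autoImplicit false

namespace Pool.Agent.W489.RV

open Finset
open Pool.Agent.H442R2
open Pool.Agent.H442R2.KF
open Pool.Agent.W23.DC hiding St_NU St_SP
open Pool.Agent.W21.RV

theorem mem_pr {N : ℕ} {u v : ℝ} {p : ℕ} : p ∈ pr N u v ↔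
    (1 ≤ p ∧ p ≤ N) ∧ p.Prime ∧ u ≤ tt N p ∧ tt N p < v := by
  simp only [pr, mem_filter, mem_Icc]

theorem siz {N : ℕ} (hN : 2 ≤ N) (u v : ℝ) : Siz (pr N u v) (tt N) := by
  have hL : 0 < Real.log N := Real.log_pos (by exact_mod_cast (by omega : 1 < N))
  refine ⟨fun p hp => (mem_pr.1 hp).2.1, fun p hp => ?_, fun p hp q hq => ?_⟩
  · have h2 := (mem_pr.1 hp).2.1.one_lt
    exact div_pos (Real.log_pos (by exact_mod_cast h2)) hL
  · have h2 := (mem_pr.1 hp).2.1.pos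
    have h3 := (mem_pr.1 hq).2.1.pos
    unfold tt
    rw [div_lt_div_iff_of_pos_right hL, Real.log_lt_log_iff (by exact_mod_cast h2)
      (by exact_mod_cast h3)]
    exact Nat.cast_lt

theorem cw_nonneg {N : ℕ} {u : ℝ} : ∀ q ∈ pr N u (2 / 5), 0 ≤ cw N q := by
  intro q hq
  have := (mem_pr.1 hq).2.2.2
  unfold cw
  have h1 : tt N q / (2 / 5) ≤ 1 := by
    rw [div_le_one (by norm_num)]
    exact this.le
  nlinarith

theorem cw_le {N : ℕ} (hN : 2 ≤ N) {u v : ℝ} : ∀ q ∈ pr N u v, cw N q ≤ 21 / 20 := by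
  intro q hq
  have := (siz hN u v).pos q hq
  unfold cw
  have h1 : 0 ≤ tt N q / (2 / 5) := by positivity
  nlinarith

/-- the indicator of the divisors -/
noncomputable def ind (n : ℕ) : ℕ → ℝ := fun e => if e ∣ n then 1 else 0

/-- the second level and the sifting limit -/
noncomputable def ta (N q : ℕ) : ℝ := 12 / 25 - tt N q
noncomputable def za (N q : ℕ) : ℝ := min (1 / 8) (ta N q)

theorem Wf_ge (hPT : St_PT) {N : ℕ} (hN : 2 ≤ N) {ε₁ : ℝ} (K n : ℕ) :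
    LL (pr N ε₁ (1 / 8)) (tt N) (ind n) K false (12 / 25) (1 / 8) 1 -
      ∑ q ∈ pr N (1 / 8) (2 / 5), cw N q *
        LL (pr N ε₁ (1 / 8)) (tt N) (ind n) K true (ta N q) (za N q) q ≤ Wf N ε₁ n := by
  classical
  have hS := siz hN ε₁ (1 / 8)
  have h1 := (hPT (pr N ε₁ (1 / 8)) (tt N) hS n K (12 / 25) (1 / 8) 1
    (fun p hp _ h => (hS.pr p hp).one_lt.ne' (Nat.dvd_one.1 h))).2
  have h2 : ∀ q ∈ pr N (1 / 8) (2 / 5),
      (if ∀ p ∈ pr N ε₁ (1 / 8), ¬ p ∣ n then (1 : ℝ) else 0) * (if q ∣ n then 1 else 0) ≤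
      LL (pr N ε₁ (1 / 8)) (tt N) (ind n) K true (ta N q) (za N q) q := by
    intro q hq
    have h3 := (hPT (pr N ε₁ (1 / 8)) (tt N) hS n K (ta N q) (za N q) q (fun p hp _ h => by
      have h4 := (Nat.prime_dvd_prime_iff_eq (hS.pr p hp) (mem_pr.1 hq).2.1).1 h
      have h5 := (mem_pr.1 hp).2.2.2
      have h6 := (mem_pr.1 hq).2.2.1
      rw [h4] at h5
      linarith)).1
    refine le_trans ?_ h3
    by_cases h7 : ∀ p ∈ pr N ε₁ (1 / 8), ¬ p ∣ n
    · by_cases h8 : q ∣ n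
      · rw [if_pos h7, if_pos h8, if_pos ⟨h8, fun p hp _ => h7 p hp⟩, one_mul]
      · rw [if_neg h8, mul_zero]
        split_ifs <;> norm_num
    · rw [if_neg h7, zero_mul]
      split_ifs <;> norm_num
  have h9 : LL (pr N ε₁ (1 / 8)) (tt N) (ind n) K false (12 / 25) (1 / 8) 1 ≤
      (if ∀ p ∈ pr N ε₁ (1 / 8), ¬ p ∣ n then (1 : ℝ) else 0) := by
    refine h1.trans ?_
    by_cases h7 : ∀ p ∈ pr N ε₁ (1 / 8), ¬ p ∣ n
    · rw [if_pos h7]
      split_ifs <;> norm_num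
    · rw [if_neg h7, if_neg]
      rintro ⟨-, h8⟩
      exact h7 (fun p hp => h8 p hp (mem_pr.1 hp).2.2.2)
  have h10 : ∑ q ∈ pr N (1 / 8) (2 / 5), cw N q *
      ((if ∀ p ∈ pr N ε₁ (1 / 8), ¬ p ∣ n then (1 : ℝ) else 0) * (if q ∣ n then 1 else 0)) ≤
      ∑ q ∈ pr N (1 / 8) (2 / 5), cw N q *
        LL (pr N ε₁ (1 / 8)) (tt N) (ind n) K true (ta N q) (za N q) q :=
    Finset.sum_le_sum fun q hq => mul_le_mul_of_nonneg_left (h2 q hq) (cw_nonneg q hq)
  have h11 : Wf N ε₁ n = (if ∀ p ∈ pr N ε₁ (1 / 8), ¬ p ∣ n then (1 : ℝ) else 0) -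
      ∑ q ∈ pr N (1 / 8) (2 / 5), cw N q *
      ((if ∀ p ∈ pr N ε₁ (1 / 8), ¬ p ∣ n then (1 : ℝ) else 0) * (if q ∣ n then 1 else 0)) := by
    unfold Wf
    rw [mul_sub, mul_one, Finset.mul_sum]
    congr 1
    apply Finset.sum_congr rfl
    intro q _
    ring
  rw [h11]
  linarith

theorem fA_le (A : Finset ℕ) (p : ℕ) : |fA A p| ≤ 1 := by
  unfold fA
  split_ifs <;> simp

theorem count_eq {N : ℕ} {A : Finset ℕ} (hA : ∀ p ∈ A, p.Prime ∧ p ≤ N) (a : ℤ) (e : ℕ) :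
    ∑ p ∈ A, ind (a - (p : ℤ)).natAbs e =
      (A.card : ℝ) * (1 / (Nat.totient e : ℝ)) + BX.Df (fA A) N a e := by
  classical
  unfold BX.Df
  have h1 : ∑ p ∈ (Icc 1 N).filter (fun p : ℕ => p.Prime ∧ (p : ℤ) ≡ a [ZMOD e]), fA A p =
      ∑ p ∈ A, ind (a - (p : ℤ)).natAbs e := by
    have h2 : ∑ p ∈ A, ind (a - (p : ℤ)).natAbs e =
        ∑ p ∈ A.filter (fun p : ℕ => (p : ℤ) ≡ a [ZMOD e]), (1 : ℝ) := by
      rw [Finset.sum_filter]
      apply Finset.sum_congr rfl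
      intro p _
      unfold ind
      have : (e ∣ (a - (p : ℤ)).natAbs) ↔ ((p : ℤ) ≡ a [ZMOD e]) := by
        rw [Int.modEq_iff_dvd, Int.natCast_dvd]
      simp only [this]
    rw [h2]
    symm
    have h3 : A.filter (fun p : ℕ => (p : ℤ) ≡ a [ZMOD e]) ⊆
        (Icc 1 N).filter (fun p : ℕ => p.Prime ∧ (p : ℤ) ≡ a [ZMOD e]) := by
      intro p hp
      rw [mem_filter] at hp
      rw [mem_filter, mem_Icc]
      have := hA p hp.1
      exact ⟨⟨this.1.pos, this.2⟩, this.1, hp.2⟩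
    rw [← Finset.sum_subset h3]
    · apply Finset.sum_congr rfl
      intro p hp
      rw [mem_filter] at hp
      unfold fA
      rw [if_pos hp.1]
    · intro p hp hpn
      rw [mem_filter] at hp hpn
      unfold fA
      rw [if_neg]
      intro h
      exact hpn ⟨h, hp.2.2⟩
  have h4 : ∑ p ∈ (Icc 1 N).filter Nat.Prime, fA A p = A.card := by
    have h5 : A ⊆ (Icc 1 N).filter Nat.Prime := by
      intro p hp
      have := hA p hp
      rw [mem_filter, mem_Icc]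
      exact ⟨⟨this.1.pos, this.2⟩, this.1⟩
    rw [← Finset.sum_subset h5]
    · have : ∑ p ∈ A, fA A p = ∑ p ∈ A, (1 : ℝ) := by
        apply Finset.sum_congr rfl
        intro p hp
        unfold fA
        rw [if_pos hp]
      rw [this]
      simp
    · intro p _ hpn
      unfold fA
      rw [if_neg hpn]
  rw [h1, h4]
  ring

theorem Df_one (f : ℕ → ℝ) (N : ℕ) (a : ℤ) : BX.Df f N a 1 = 0 := by
  unfold BX.Df
  have : (Icc 1 N).filter (fun p : ℕ => p.Prime ∧ (p : ℤ) ≡ a [ZMOD (1 : ℕ)]) =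
      (Icc 1 N).filter Nat.Prime := by
    apply Finset.filter_congr
    intro p _
    refine ⟨fun h => h.1, fun h => ⟨h, ?_⟩⟩
    push_cast
    exact Int.modEq_one
  rw [this]
  simp

theorem tot_mul (P : Finset ℕ) (hP : ∀ p ∈ P, p.Prime) : ∀ d, ∀ p ∈ P, ¬ p ∣ d →
    (fun e : ℕ => 1 / (Nat.totient e : ℝ)) (d * p) =
      (fun e : ℕ => 1 / (Nat.totient e : ℝ)) d * (1 / ((p : ℝ) - 1)) := by
  intro d p hp hpd
  have h1 : Nat.Coprime d p := ((hP p hp).coprime_iff_not_dvd.2 hpd).symm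
  simp only
  rw [Nat.totient_mul h1, Nat.totient_prime (hP p hp)]
  have h2 : 1 ≤ p := (hP p hp).pos
  push_cast [Nat.cast_sub h2]
  rw [one_div_mul_one_div]

/-- the recursion for the counting function of `A` -/
theorem LL_eq (hLN : St_LN) {N : ℕ} (hN : 2 ≤ N) {ε₁ : ℝ} {A : Finset ℕ}
    (hA : ∀ p ∈ A, p.Prime ∧ p ≤ N) (a : ℤ) (K : ℕ) (b : Bool) (τ ζ : ℝ) (d : ℕ)
    (hd : ∀ p ∈ pr N ε₁ (1 / 8), tt N p < ζ → ¬ p ∣ d) :
    ∑ p ∈ A, LL (pr N ε₁ (1 / 8)) (tt N) (ind (a - (p : ℤ)).natAbs) K b τ ζ d =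
      (A.card : ℝ) * (1 / (Nat.totient d : ℝ) *
        MM (pr N ε₁ (1 / 8)) (tt N) (fun p => 1 / ((p : ℝ) - 1)) K b τ ζ) +
      LL (pr N ε₁ (1 / 8)) (tt N) (BX.Df (fA A) N a) K b τ ζ d := by
  rw [← hLN.1 (pr N ε₁ (1 / 8)) (tt N) A (fun p => ind (a - (p : ℤ)).natAbs) K b τ ζ d]
  have h1 : (fun e => ∑ p ∈ A, ind (a - (p : ℤ)).natAbs e) =
      (fun e => (A.card : ℝ) * (fun e : ℕ => 1 / (Nat.totient e : ℝ)) e + BX.Df (fA A) N a e) := by
    funext e
    exact count_eq hA a e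
  rw [h1, hLN.2.1 (pr N ε₁ (1 / 8)) (tt N) (A.card : ℝ) (fun e : ℕ => 1 / (Nat.totient e : ℝ))
    (BX.Df (fA A) N a) K b τ ζ d,
    hLN.2.2 (pr N ε₁ (1 / 8)) (tt N) (siz hN _ _) (fun p => 1 / ((p : ℝ) - 1))
      (fun e : ℕ => 1 / (Nat.totient e : ℝ)) (tot_mul _ (siz hN _ _).pr) K b τ ζ d hd]

/-- elements of `EE` -/
theorem mem_EE {N : ℕ} {u v τ ζ : ℝ} {e : ℕ} (h : e ∈ EE (pr N u v) (tt N) τ ζ) :
    e ≠ 0 ∧ Squarefree e ∧ (∀ p ∈ e.primeFactors, u ≤ tt N p ∧ tt N p < v) ∧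
      WFac (tt N) τ e := by
  classical
  unfold EE at h
  rw [mem_filter, mem_image] at h
  obtain ⟨⟨s, hs, rfl⟩, hw⟩ := h
  rw [mem_powerset] at hs
  have hp : ∀ p ∈ s, p ∈ pr N u v := fun p hp => (mem_filter.1 (hs hp)).1
  have hpr : ∀ p ∈ s, p.Prime := fun p h => (mem_pr.1 (hp p h)).2.1
  have h0 : ∏ p ∈ s, p ≠ 0 := Finset.prod_ne_zero_iff.2 fun p h => (hpr p h).ne_zero
  refine ⟨h0, ?_, ?_, hw⟩
  · exact (Finset.squarefree_prod_of_pairwise_isCoprime (fun p hp q hq hpq => by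
      exact Nat.coprime_iff_isRelPrime.1 ((Nat.coprime_primes (hpr p hp) (hpr q hq)).2 hpq))
      (fun p h => (hpr p h).prime.squarefree))
  · intro p hp'
    rw [Nat.mem_primeFactors] at hp'
    obtain ⟨q, hq, hpq⟩ := (hp'.1.prime.dvd_finsetProd_iff _).1 hp'.2.1
    have : p = q := (Nat.prime_dvd_prime_iff_eq hp'.1 (hpr q hq)).1 hpq
    rw [this]
    exact (mem_pr.1 (hp q hq)).2.2

/-- squarefree rough numbers of bounded size -/
theorem mem_roughs {N d : ℕ} {ε₁ : ℝ} (hN : 2 ≤ N) (hε : 0 < ε₁) (hd1 : 1 < d)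
    (hsq : Squarefree d) (hp : ∀ p ∈ d.primeFactors, ε₁ ≤ tt N p)
    (hsz : sz (tt N) d ≤ 12 / 25) :
    d ∈ BX.roughs ((N : ℝ) ^ (ε₁ / 2)) ⌊(N : ℝ) ^ (12 / 25 : ℝ)⌋₊ := by
  classical
  have hN1 : (1 : ℝ) < N := by exact_mod_cast (by omega : 1 < N)
  have hN0 : (0 : ℝ) < N := by linarith
  have hL := Pool.Agent.W378.DC.TFA.logN_pos hN
  have hdN := Pool.Agent.W378.DC.TFA.rpow_eq hN hsq
  unfold BX.roughs
  rw [Finset.mem_filter, Finset.mem_Icc]
  refine ⟨⟨by omega, ?_⟩, hd1, ?_⟩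
  · apply Nat.le_floor
    rw [hdN]
    exact Real.rpow_le_rpow_of_exponent_le hN1.le hsz
  · intro p hpp hpd
    have h1 := hp p (Nat.mem_primeFactors.2 ⟨hpp, hpd, hsq.ne_zero⟩)
    have hp0 : (0 : ℝ) < p := by exact_mod_cast hpp.pos
    unfold tt at h1
    rw [le_div_iff₀ hL] at h1
    rw [← Real.exp_log hp0, Real.rpow_def_of_pos hN0]
    apply Real.exp_lt_exp.2
    nlinarith

theorem sz_le_of_WFac {N e : ℕ} {τ : ℝ} (hτ : 0 ≤ τ) (hsq : Squarefree e)
    (hW : WFac (tt N) τ e) : sz (tt N) e ≤ τ := by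
  obtain ⟨u, v, huv, hu, hv⟩ := hW τ 0 hτ le_rfl (by ring)
  have h1 : sz (tt N) (u * v) = _ :=
    Pool.Agent.W378.DC.TFA.sz_mul (N := N) (u := u) (v := v) (by rw [huv]; exact hsq)
  rw [huv] at h1
  linarith

/-- the first error term -/
theorem err1 {N : ℕ} (hN : 2 ≤ N) {ε₁ : ℝ} (hε : 0 < ε₁) (f : ℕ → ℝ) (a : ℤ) :
    ∑ e ∈ EE (pr N ε₁ (1 / 8)) (tt N) (12 / 25) (1 / 8), |BX.Df f N a (1 * e)| ≤
      ∑ d ∈ BX.roughs ((N : ℝ) ^ (ε₁ / 2)) ⌊(N : ℝ) ^ (12 / 25 : ℝ)⌋₊, |BX.Df f N a d| := by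
  classical
  have h1 : ∑ e ∈ EE (pr N ε₁ (1 / 8)) (tt N) (12 / 25) (1 / 8), |BX.Df f N a (1 * e)| =
      ∑ e ∈ (EE (pr N ε₁ (1 / 8)) (tt N) (12 / 25) (1 / 8)).filter (fun e => 1 < e),
        |BX.Df f N a e| := by
    rw [Finset.sum_filter]
    apply Finset.sum_congr rfl
    intro e he
    rw [one_mul]
    split_ifs with h
    · rfl
    · have h0 := (mem_EE he).1
      have : e = 1 := by omega
      rw [this, Df_one, abs_zero]
  rw [h1]
  apply Finset.sum_le_sum_of_subset_of_nonneg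
  · intro e he
    rw [mem_filter] at he
    obtain ⟨h2, h3, h4, h5⟩ := mem_EE he.1
    exact mem_roughs hN hε he.2 h3 (fun p hp => (h4 p hp).1)
      (sz_le_of_WFac (by norm_num) h3 h5)
  · intro _ _ _
    exact abs_nonneg _

/-- the second error term -/
theorem err2 {N : ℕ} (hN : 2 ≤ N) {ε₁ : ℝ} (hε : 0 < ε₁) (hε2 : ε₁ ≤ 1 / 25)
    (f : ℕ → ℝ) (a : ℤ) :
    ∑ q ∈ pr N (1 / 8) (2 / 5),
      ∑ e ∈ EE (pr N ε₁ (1 / 8)) (tt N) (ta N q) (za N q), |BX.Df f N a (q * e)| ≤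
      ∑ d ∈ BX.roughs ((N : ℝ) ^ (ε₁ / 2)) ⌊(N : ℝ) ^ (12 / 25 : ℝ)⌋₊, |BX.Df f N a d| := by
  classical
  rw [Finset.sum_sigma' (f := fun q e => |BX.Df f N a (q * e)|)]
  have hinj : Set.InjOn (fun x : (_ : ℕ) × ℕ => x.1 * x.2)
      ((pr N (1 / 8) (2 / 5)).sigma
        (fun q => EE (pr N ε₁ (1 / 8)) (tt N) (ta N q) (za N q)) : Finset ((_ : ℕ) × ℕ)) := by
    rintro ⟨q, e⟩ hqe ⟨q', e'⟩ hqe' heq
    rw [mem_coe, mem_sigma] at hqe hqe'
    simp only at hqe hqe' heq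
    have hq := mem_pr.1 hqe.1
    have hq' := mem_pr.1 hqe'.1
    obtain ⟨h1, h2, h3, h4⟩ := mem_EE hqe.2
    obtain ⟨h1', h2', h3', h4'⟩ := mem_EE hqe'.2
    have hqq : q = q' := by
      have hd : q ∣ q' * e' := heq ▸ Dvd.intro e rfl
      rcases (hq.2.1.dvd_mul).1 hd with h | h
      · exact (Nat.prime_dvd_prime_iff_eq hq.2.1 hq'.2.1).1 h
      · exfalso
        have := (h3' q (Nat.mem_primeFactors.2 ⟨hq.2.1, h, h1'⟩)).2
        linarith [hq.2.2.1]
    subst hqq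
    have : e = e' := Nat.eq_of_mul_eq_mul_left hq.2.1.pos heq
    rw [this]
  calc ∑ x ∈ (pr N (1 / 8) (2 / 5)).sigma
        (fun q => EE (pr N ε₁ (1 / 8)) (tt N) (ta N q) (za N q)), |BX.Df f N a (x.1 * x.2)|
      = ∑ d ∈ ((pr N (1 / 8) (2 / 5)).sigma
        (fun q => EE (pr N ε₁ (1 / 8)) (tt N) (ta N q) (za N q))).image (fun x => x.1 * x.2),
          |BX.Df f N a d| := by
        rw [Finset.sum_image hinj]
    _ ≤ _ := by
        apply Finset.sum_le_sum_of_subset_of_nonneg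
        · intro d hd
          rw [mem_image] at hd
          obtain ⟨⟨q, e⟩, hqe, rfl⟩ := hd
          rw [mem_sigma] at hqe
          simp only at hqe ⊢
          have hq := mem_pr.1 hqe.1
          obtain ⟨h1, h2, h3, h4⟩ := mem_EE hqe.2
          have hqe : ¬ q ∣ e := by
            intro h
            have := (h3 q (Nat.mem_primeFactors.2 ⟨hq.2.1, h, h1⟩)).2
            linarith [hq.2.2.1]
          have hcop : Nat.Coprime q e := (Nat.Prime.coprime_iff_not_dvd hq.2.1).2 hqe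
          have hsqd : Squarefree (q * e) := (Nat.squarefree_mul hcop).2 ⟨hq.2.1.squarefree, h2⟩
          have hszq : sz (tt N) q = tt N q := by
            unfold sz
            rw [hq.2.1.primeFactors, Finset.sum_singleton]
          have hmul : sz (tt N) (q * e) = tt N q + sz (tt N) e := by
            rw [Pool.Agent.W378.DC.TFA.sz_mul hsqd, hszq]
          have hTe : sz (tt N) e ≤ ta N q := by
            refine sz_le_of_WFac ?_ h2 h4
            unfold ta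
            linarith [hq.2.2.2]
          refine mem_roughs hN hε ?_ hsqd ?_ ?_
          · have := hq.2.1.one_lt
            have := Nat.pos_of_ne_zero h1
            nlinarith
          · intro p hpm
            rw [Nat.primeFactors_mul hq.2.1.ne_zero h1, Finset.mem_union, hq.2.1.primeFactors,
              Finset.mem_singleton] at hpm
            rcases hpm with rfl | h
            · linarith [hq.2.2.1]
            · exact (h3 p h).1
          · rw [hmul]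
            unfold ta at hTe
            linarith
        · intro _ _ _
          exact abs_nonneg _

theorem ta_pos {N q : ℕ} {u : ℝ} (hq : q ∈ pr N u (2 / 5)) : 2 / 25 < ta N q := by
  have h := (mem_pr.1 hq).2.2.2
  unfold ta
  linarith

theorem ta_le {N q : ℕ} (hq : q ∈ pr N (1 / 8) (2 / 5)) : ta N q ≤ 3 * za N q := by
  have h := (mem_pr.1 hq).2.2.1
  have h0 := ta_pos hq
  unfold za
  rcases le_total (1 / 8) (ta N q) with h1 | h1
  · rw [min_eq_left h1]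
    unfold ta
    linarith
  · rw [min_eq_right h1]
    linarith

theorem LW (hPT : St_PT) (hLN : St_LN) (hER : St_ER) (hMT : St_MT)
    (hMP : St_MP) (hNU : St_NU) (hQS : St_QS) : St_LW := by
  intro A0 F f hS
  classical
  set J : ℝ := 21 / 20 * (∫ x in (1 / 8 : ℝ)..(2 / 5),
      (1 - x / (2 / 5)) / (x * (12 / 25 - x))) with hJ
  set Z : ℝ := Real.log (71 / 25) / (12 / 25) with hZ
  have hJZ : J < Z := hNU
  set c₂ : ℝ := Z - J with hc₂
  have hc₂0 : 0 < c₂ := by rw [hc₂]; linarith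
  have hA0 := hS.pos
  refine ⟨A0 * c₂ / 2, by positivity, ?_⟩
  intro ε₁ hε hε2
  obtain ⟨η, hη0, HM⟩ := hMT A0 F f hS ε₁ (ε₁ * A0 * c₂ / 32) ⌈1 / ε₁⌉₊ hε (by linarith)
    (by positivity)
  obtain ⟨N₁, hN₁⟩ := mer_of hMP ε₁ (1 / 8) η hε (by norm_num) hη0
  obtain ⟨N₂, hN₂⟩ := hQS (c₂ / 4) (by positivity)
  obtain ⟨N₃, hN₃⟩ := hMP (1 / 8) 1 (by norm_num) one_pos
  refine ⟨max (max N₁ N₂) (max N₃ 2), ?_⟩
  intro N hN A hA a
  have hNN₁ : N₁ ≤ N := ((le_max_left _ _).trans (le_max_left _ _)).trans hN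
  have hNN₂ : N₂ ≤ N := ((le_max_right _ _).trans (le_max_left _ _)).trans hN
  have hNN₃ : N₃ ≤ N := ((le_max_left _ _).trans (le_max_right _ _)).trans hN
  have hN2 : 2 ≤ N := ((le_max_right _ _).trans (le_max_right _ _)).trans hN
  set P := pr N ε₁ (1 / 8) with hP
  set Q := pr N (1 / 8) (2 / 5) with hQ
  set g : ℕ → ℝ := fun p => 1 / ((p : ℝ) - 1) with hg
  set K := ⌈1 / ε₁⌉₊ with hK
  set r := BX.Df (fA A) N a with hr
  set R := ∑ d ∈ BX.roughs ((N : ℝ) ^ (ε₁ / 2)) ⌊(N : ℝ) ^ (12 / 25 : ℝ)⌋₊, |r d| with hR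
  have hR0 : 0 ≤ R := Finset.sum_nonneg fun _ _ => abs_nonneg _
  have hKε : 1 ≤ (K + 2) * ε₁ := by
    have h1 : 1 / ε₁ ≤ K := Nat.le_ceil _
    have h2 : 1 / ε₁ * ε₁ = 1 := by field_simp
    nlinarith
  have HM' := HM P (tt N) g (1 / 8) (by norm_num) g_nonneg (fun p hp => (mem_pr.1 hp).2.2.1)
    (hN₁ N hNN₁) K le_rfl
  -- the main terms
  have hminus : ε₁ * A0 * Z - ε₁ * A0 * c₂ / 32 ≤ MM P (tt N) g K false (12 / 25) (1 / 8) := by
    have h1 := (HM' (12 / 25) (1 / 8) (by linarith) (by linarith) le_rfl (by norm_num)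
      (by norm_num)).2 (by norm_num)
    have h2 : ε₁ / (1 / 8) * f (12 / 25 / (1 / 8)) = ε₁ * A0 * Z := by
      rw [hS.f4 _ (by norm_num) (by norm_num), hZ]
      have : (12 / 25 / (1 / 8) - 1 : ℝ) = 71 / 25 := by norm_num
      rw [this]
      ring
    rw [h2] at h1
    exact h1
  have hplus : ∀ q ∈ Q, MM P (tt N) g K true (ta N q) (za N q) ≤
      ε₁ * A0 / ta N q + ε₁ * A0 * c₂ / 32 := by
    intro q hq
    have h0 := ta_pos hq
    have h1 := ta_le hq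
    have h2 : za N q ≤ ta N q := min_le_right _ _
    have h3 : ε₁ ≤ za N q := le_min (by linarith) (by linarith)
    have h4 : ta N q ≤ 1 := by
      have := (mem_pr.1 hq).2.2.1
      unfold ta
      linarith
    have h5 := (HM' (ta N q) (za N q) (by linarith) h3 (min_le_left _ _) h2 h4).1
    have h6 : 0 < za N q := by linarith
    have h7 : ε₁ / za N q * F (ta N q / za N q) = ε₁ * A0 / ta N q := by
      rw [hS.F3 _ ((one_le_div h6).2 h2) ((div_le_iff₀ h6).2 h1)]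
      field_simp
    rw [h7] at h5
    exact h5
  -- the recursion, summed over `A`
  have e1 := LL_eq hLN hN2 (ε₁ := ε₁) hA a K false (12 / 25) (1 / 8) 1
    (fun p hp _ h => (mem_pr.1 hp).2.1.one_lt.ne' (Nat.dvd_one.1 h))
  have e2 : ∀ q ∈ Q, ∑ p ∈ A, LL P (tt N) (ind (a - (p : ℤ)).natAbs) K true (ta N q) (za N q) q =
      (A.card : ℝ) * (1 / ((q : ℝ) - 1) * MM P (tt N) g K true (ta N q) (za N q)) +
        LL P (tt N) r K true (ta N q) (za N q) q := by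
    intro q hq
    have h1 := LL_eq hLN hN2 (ε₁ := ε₁) hA a K true (ta N q) (za N q) q (fun p hp _ h => by
      have h4 := (Nat.prime_dvd_prime_iff_eq (mem_pr.1 hp).2.1 (mem_pr.1 hq).2.1).1 h
      have h5 := (mem_pr.1 hp).2.2.2
      have h6 := (mem_pr.1 hq).2.2.1
      rw [h4] at h5
      linarith)
    have h2 : ((Nat.totient q : ℕ) : ℝ) = (q : ℝ) - 1 := by
      rw [Nat.totient_prime (mem_pr.1 hq).2.1]
      have : 1 ≤ q := (mem_pr.1 hq).2.1.pos
      push_cast [Nat.cast_sub this]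
      rfl
    rw [h2] at h1
    exact h1
  have hsum : ∑ p ∈ A, (LL P (tt N) (ind (a - (p : ℤ)).natAbs) K false (12 / 25) (1 / 8) 1 -
      ∑ q ∈ Q, cw N q * LL P (tt N) (ind (a - (p : ℤ)).natAbs) K true (ta N q) (za N q) q) ≤
      ∑ p ∈ A, Wf N ε₁ (a - (p : ℤ)).natAbs :=
    Finset.sum_le_sum fun p _ => Wf_ge hPT hN2 K _
  rw [Finset.sum_sub_distrib, Finset.sum_comm] at hsum
  have e3 : ∑ q ∈ Q, ∑ p ∈ A, cw N q *
      LL P (tt N) (ind (a - (p : ℤ)).natAbs) K true (ta N q) (za N q) q =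
      ∑ q ∈ Q, cw N q * ((A.card : ℝ) * (1 / ((q : ℝ) - 1) *
        MM P (tt N) g K true (ta N q) (za N q)) + LL P (tt N) r K true (ta N q) (za N q) q) := by
    apply Finset.sum_congr rfl
    intro q hq
    rw [← Finset.mul_sum, e2 q hq]
  rw [e3, e1] at hsum
  -- the errors
  have hE1 : |LL P (tt N) r K false (12 / 25) (1 / 8) 1| ≤ R :=
    (hER P (tt N) (siz hN2 _ _) r K false (12 / 25) (1 / 8) 1 (by norm_num)
      (fun _ => by norm_num)).trans (err1 hN2 hε (fA A) a)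
  have hE2 : ∑ q ∈ Q, cw N q * LL P (tt N) r K true (ta N q) (za N q) q ≤ 21 / 20 * R := by
    calc ∑ q ∈ Q, cw N q * LL P (tt N) r K true (ta N q) (za N q) q
        ≤ ∑ q ∈ Q, 21 / 20 * ∑ e ∈ EE P (tt N) (ta N q) (za N q), |r (q * e)| := by
          apply Finset.sum_le_sum
          intro q hq
          have h1 := hER P (tt N) (siz hN2 _ _) r K true (ta N q) (za N q) q
            (by have := ta_pos hq; linarith) (fun h => by simp at h)
          have h2 := cw_nonneg q hq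
          have h3 := cw_le hN2 q hq
          calc cw N q * LL P (tt N) r K true (ta N q) (za N q) q
              ≤ cw N q * |LL P (tt N) r K true (ta N q) (za N q) q| :=
                mul_le_mul_of_nonneg_left (le_abs_self _) h2
            _ ≤ 21 / 20 * ∑ e ∈ EE P (tt N) (ta N q) (za N q), |r (q * e)| :=
                mul_le_mul h3 h1 (abs_nonneg _) (by norm_num)
      _ = 21 / 20 * ∑ q ∈ Q, ∑ e ∈ EE P (tt N) (ta N q) (za N q), |r (q * e)| := by
          rw [Finset.mul_sum]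
      _ ≤ 21 / 20 * R := mul_le_mul_of_nonneg_left (err2 hN2 hε hε2 (fA A) a) (by norm_num)
  -- the sum over `q`
  have hq1 : ∑ q ∈ Q, g q * (cw N q / ta N q) ≤ J + c₂ / 4 := by
    have := hN₂ N hNN₂
    simpa only [hg, cw, ta] using this
  have hq2 : ∑ q ∈ Q, g q ≤ 3 := by
    have h1 := (abs_le.1 (hN₃ N hNN₃ (1 / 8) (2 / 5) le_rfl (by norm_num) (by norm_num))).2
    have h2 : Real.log (2 / 5 / (1 / 8)) ≤ 2 := by
      rw [Real.log_le_iff_le_exp (by norm_num)]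
      have h3 := Real.add_one_le_exp (1 : ℝ)
      have h4 : Real.exp 2 = Real.exp 1 * Real.exp 1 := by
        rw [← Real.exp_add]
        norm_num
      nlinarith
    simp only [hg]
    linarith
  have hq3 : ∑ q ∈ Q, cw N q * ((A.card : ℝ) * (1 / ((q : ℝ) - 1) *
        MM P (tt N) g K true (ta N q) (za N q))) ≤
      (A.card : ℝ) * (ε₁ * A0 * (J + c₂ / 4) + ε₁ * A0 * c₂ / 32 * (21 / 20 * 3)) := by
    calc ∑ q ∈ Q, cw N q * ((A.card : ℝ) * (1 / ((q : ℝ) - 1) *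
          MM P (tt N) g K true (ta N q) (za N q)))
        ≤ ∑ q ∈ Q, (A.card : ℝ) * (ε₁ * A0 * (g q * (cw N q / ta N q)) +
            ε₁ * A0 * c₂ / 32 * (21 / 20 * g q)) := by
          apply Finset.sum_le_sum
          intro q hq
          have h1 := hplus q hq
          have h2 := cw_nonneg q hq
          have h3 := cw_le hN2 q hq
          have h4 : 0 ≤ g q := g_nonneg q hq
          have h5 := ta_pos hq
          have h6 : (0 : ℝ) ≤ A.card := Nat.cast_nonneg _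
          have h7 : cw N q * (g q * MM P (tt N) g K true (ta N q) (za N q)) ≤
              ε₁ * A0 * (g q * (cw N q / ta N q)) + ε₁ * A0 * c₂ / 32 * (21 / 20 * g q) := by
            calc cw N q * (g q * MM P (tt N) g K true (ta N q) (za N q))
                ≤ cw N q * (g q * (ε₁ * A0 / ta N q + ε₁ * A0 * c₂ / 32)) := by gcongr
              _ = ε₁ * A0 * (g q * (cw N q / ta N q)) +
                  ε₁ * A0 * c₂ / 32 * (cw N q * g q) := by ring
              _ ≤ _ := by gcongr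
          calc cw N q * ((A.card : ℝ) * (1 / ((q : ℝ) - 1) *
                MM P (tt N) g K true (ta N q) (za N q)))
              = (A.card : ℝ) * (cw N q * (g q * MM P (tt N) g K true (ta N q) (za N q))) := by
                simp only [hg]
                ring
            _ ≤ _ := mul_le_mul_of_nonneg_left h7 h6
      _ = (A.card : ℝ) * (ε₁ * A0 * (∑ q ∈ Q, g q * (cw N q / ta N q)) +
            ε₁ * A0 * c₂ / 32 * (21 / 20 * ∑ q ∈ Q, g q)) := by
          rw [← Finset.mul_sum, Finset.sum_add_distrib, ← Finset.mul_sum, ← Finset.mul_sum,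
            ← Finset.mul_sum]
      _ ≤ _ := by
          have h1 : 0 ≤ ε₁ * A0 := by positivity
          have h2 : 0 ≤ ε₁ * A0 * c₂ / 32 := by positivity
          gcongr
  have e4 : ∑ q ∈ Q, cw N q * ((A.card : ℝ) * (1 / ((q : ℝ) - 1) *
        MM P (tt N) g K true (ta N q) (za N q)) + LL P (tt N) r K true (ta N q) (za N q) q) =
      ∑ q ∈ Q, cw N q * ((A.card : ℝ) * (1 / ((q : ℝ) - 1) *
        MM P (tt N) g K true (ta N q) (za N q))) +
      ∑ q ∈ Q, cw N q * LL P (tt N) r K true (ta N q) (za N q) q := by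
    rw [← Finset.sum_add_distrib]
    apply Finset.sum_congr rfl
    intro q _
    ring
  rw [e4] at hsum
  have hA6 : (0 : ℝ) ≤ A.card := Nat.cast_nonneg _
  have hmain : (A.card : ℝ) * (ε₁ * A0 * Z - ε₁ * A0 * c₂ / 32) ≤
      (A.card : ℝ) * (1 / ((Nat.totient 1 : ℕ) : ℝ) *
        MM P (tt N) g K false (12 / 25) (1 / 8)) := by
    apply mul_le_mul_of_nonneg_left _ hA6
    rw [Nat.totient_one]
    norm_num
    linarith
  have hE1' := (abs_le.1 hE1).1
  have hfin : A0 * c₂ / 2 * ε₁ * A.card ≤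
      (A.card : ℝ) * (ε₁ * A0 * Z - ε₁ * A0 * c₂ / 32) -
      (A.card : ℝ) * (ε₁ * A0 * (J + c₂ / 4) + ε₁ * A0 * c₂ / 32 * (21 / 20 * 3)) := by
    have h1 : (A.card : ℝ) * (ε₁ * A0 * Z - ε₁ * A0 * c₂ / 32) -
      (A.card : ℝ) * (ε₁ * A0 * (J + c₂ / 4) + ε₁ * A0 * c₂ / 32 * (21 / 20 * 3)) =
        (A.card : ℝ) * (ε₁ * A0 * c₂) * (1 - 1 / 32 - 1 / 4 - 63 / 640) := by
      rw [hc₂]
      ring
    rw [h1]
    have h2 : 0 ≤ (A.card : ℝ) * (ε₁ * A0 * c₂) := by positivity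
    nlinarith
  linarith

end Pool.Agent.W489.RV
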